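import Pool.Agent.Helper62.MU.St2

/-! Project MU, module SX: segments. -/

set_option autoImplicit false

namespace Pool.Agent.Helper82.MU

open MeasureTheory Metric Set Filter Topology Polynomial
open scoped RealInnerProductSpace ContDiff
open Pool.Agent.Helper62.MU2 Pool.Agent.Helper62.Mink

theorem sl_mul {n : ℕ} {h : E n → ℝ} (hh : Sublinear h) {c : ℝ} (hc : 0 ≤ c) :
    Sublinear (fun x => c * h x) := by
  refine ⟨fun d hd x => ?_, fun x y => ?_⟩
  · simp only [hh.pos_hom d hd x]; ring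
  · have := mul_le_mul_of_nonneg_left (hh.add_le x y) hc
    linarith

theorem eval_fx (m : ℕ) (a t : ℝ) : (fx m a).eval t =
    a ^ 2 - (2 * a * ((m : ℝ) + 3) / 3) * t ^ 2 + (((m : ℝ) + 3) * ((m : ℝ) + 5) / 15) * t ^ 4 := by
  simp [fx]

theorem eval_gx (a t : ℝ) : (gx a).eval t =
    a ^ 2 - (2 * a / 3) * (1 + t ^ 2) + (1 / 15) * (3 + 6 * t ^ 2 - t ^ 4) := by
  simp [gx]

theorem eval_gx1 (a t : ℝ) : (gx a).derivative.eval t =
    - (2 * a / 3) * (2 * t) + (1 / 15) * (6 * (2 * t) - 4 * t ^ 3) := by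
  simp [gx, -map_pow]
  ring

theorem eval_gx2 (a t : ℝ) : (gx a).derivative.derivative.eval t =
    - (2 * a / 3) * 2 + (1 / 15) * (12 - 12 * t ^ 2) := by
  simp [gx, -map_pow]
  ring

theorem LP_gx (a : ℝ) : LP (gx a) := by
  intro t _
  rw [eval_gx, eval_gx1, eval_gx2]
  constructor
  · have : a ^ 2 - (2 * a / 3) * (1 + t ^ 2) + (1 / 15) * (3 + 6 * t ^ 2 - t ^ 4)
      - t * (- (2 * a / 3) * (2 * t) + (1 / 15) * (6 * (2 * t) - 4 * t ^ 3))
      = (a - (1 - t ^ 2) / 3) ^ 2 + (4 / 45) * (1 - t ^ 2) ^ 2 := by ring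
    rw [this]; positivity
  · have : (1 - t ^ 2) * (- (2 * a / 3) * 2 + (1 / 15) * (12 - 12 * t ^ 2)) +
      (a ^ 2 - (2 * a / 3) * (1 + t ^ 2) + (1 / 15) * (3 + 6 * t ^ 2 - t ^ 4)
      - t * (- (2 * a / 3) * (2 * t) + (1 / 15) * (6 * (2 * t) - 4 * t ^ 3)))
      = (a - (1 - t ^ 2)) ^ 2 := by ring
    rw [this]; positivity

theorem conv_scale {n : ℕ} (u : E n) (r : ℝ) (hr : 0 ≤ r) (f : ℝ → ℝ) (x : E n) :
    conv (fun w => |(inner ℝ (r • u) w : ℝ)|) f x = r * conv (fun w => |(inner ℝ u w : ℝ)|) f x := by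
  unfold conv
  rw [← integral_const_mul]
  refine integral_congr_ae (Filter.Eventually.of_forall fun w => ?_)
  simp only [inner_smul_left, RCLike.conj_to_real, abs_mul, abs_of_nonneg hr]
  ring

theorem lin3 {X : Type} [MeasurableSpace X] {μ : Measure X} (A B D : ℝ) {f g k : X → ℝ}
    (hf : Integrable f μ) (hg : Integrable g μ) (hk : Integrable k μ) :
    ∫ w, (A * f w + B * g w + D * k w) ∂μ = A * ∫ w, f w ∂μ + B * ∫ w, g w ∂μ + D * ∫ w, k w ∂μ := by
  have h1 : Integrable (fun w => A * f w + B * g w) μ := (hf.const_mul A).add (hg.const_mul B)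
  rw [integral_add h1 (hk.const_mul D), integral_add (hf.const_mul A) (hg.const_mul B),
    integral_const_mul, integral_const_mul, integral_const_mul]

theorem conv_unit (hMO : StMO) (m : ℕ) (hm : 1 ≤ m) (a : ℝ) : ∃ c : ℝ, 0 < c ∧
    ∀ u x : E (m + 2), ‖u‖ = 1 →
      conv (fun w => |(inner ℝ u w : ℝ)|) (fun t => (fx m a).eval t) x =
        c * zf u (fun t => (gx a).eval t) x := by
  obtain ⟨c, hc, h⟩ := hMO m hm
  refine ⟨c, hc, fun u x hu => ?_⟩
  obtain ⟨h0, h2, h4⟩ := h u x hu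
  rcases eq_or_ne x 0 with rfl | hx
  · simp [conv, zf]
  have hx' : 0 < ‖x‖ := norm_pos_iff.2 hx
  have hi : ∀ k : ℕ, Integrable (fun w : sphere (0 : E (m + 2)) 1 =>
      |(inner ℝ u (w : E (m + 2)) : ℝ)| * (inner ℝ x (w : E (m + 2)) : ℝ) ^ k)
      ((volume : Measure (E (m + 2))).toSphere) := by
    intro k
    refine Continuous.integrable_of_hasCompactSupport (by fun_prop) ?_
    exact HasCompactSupport.of_compactSpace _
  have e1 : conv (fun w => |(inner ℝ u w : ℝ)|) (fun t => (fx m a).eval t) x =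
      ∫ w : sphere (0 : E (m + 2)) 1,
        ((‖x‖ * a ^ 2) * |(inner ℝ u (w : E (m + 2)) : ℝ)|
          + (-(‖x‖ * (2 * a * ((m : ℝ) + 3) / 3) / ‖x‖ ^ 2)) *
            (|(inner ℝ u (w : E (m + 2)) : ℝ)| * (inner ℝ x (w : E (m + 2)) : ℝ) ^ 2)
          + (‖x‖ * (((m : ℝ) + 3) * ((m : ℝ) + 5) / 15) / ‖x‖ ^ 4) *
            (|(inner ℝ u (w : E (m + 2)) : ℝ)| * (inner ℝ x (w : E (m + 2)) : ℝ) ^ 4))
        ∂(volume : Measure (E (m + 2))).toSphere := by
    unfold conv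
    refine integral_congr_ae (Filter.Eventually.of_forall fun w => ?_)
    simp only [eval_fx]
    field_simp
    ring
  have hi0 : Integrable (fun w : sphere (0 : E (m + 2)) 1 =>
      |(inner ℝ u (w : E (m + 2)) : ℝ)|) ((volume : Measure (E (m + 2))).toSphere) := by
    simpa using hi 0
  rw [e1, lin3 _ _ _ hi0 (hi 2) (hi 4)]
  unfold SI at h0 h2 h4
  rw [h0, h2, h4]
  unfold zf
  simp only [eval_gx]
  have h3 : ((m : ℝ) + 3) ≠ 0 := by positivity
  have h5 : ((m : ℝ) + 5) ≠ 0 := by positivity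
  field_simp
  ring

theorem hSX (hZA : StZA) (hMO : StMO) : StSX := by
  intro m a u hm
  obtain ⟨c, hc, h⟩ := conv_unit hMO m hm a
  rcases eq_or_ne u 0 with rfl | hu
  · have : conv (fun w : E (m + 2) => |(inner ℝ (0 : E (m + 2)) w : ℝ)|)
        (fun t => (fx m a).eval t) = fun _ => 0 := by
      funext x
      simp [conv]
    rw [this]
    exact ⟨fun _ _ _ => by simp, fun _ _ => by simp⟩
  · have hu' : 0 < ‖u‖ := norm_pos_iff.2 hu
    set v : E (m + 2) := ‖u‖⁻¹ • u with hv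
    have hvn : ‖v‖ = 1 := by
      rw [hv, norm_smul, norm_inv, norm_norm, inv_mul_cancel₀ hu'.ne']
    have huv : u = ‖u‖ • v := by
      rw [hv, smul_smul, mul_inv_cancel₀ hu'.ne', one_smul]
    have e : conv (fun w : E (m + 2) => |(inner ℝ u w : ℝ)|) (fun t => (fx m a).eval t) =
        fun x => (‖u‖ * c) * zf v (fun t => (gx a).eval t) x := by
      funext x
      have := conv_scale v ‖u‖ hu'.le (fun t => (fx m a).eval t) x
      rw [← huv] at this
      rw [this, h v x hvn]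
      ring
    rw [e]
    exact sl_mul (hZA (m + 2) v (gx a) (by omega) hvn (LP_gx a)).1 (by positivity)

end Pool.Agent.Helper82.MU
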