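import Pool.Agent.Helper62.MU.St2

/-! Project MU, module ZG: the double cones. -/

set_option autoImplicit false

namespace Pool.Agent.Helper82.MU

open MeasureTheory Metric Set Filter Topology Polynomial
open scoped RealInnerProductSpace ContDiff
open Pool.Agent.Helper62.MU2 Pool.Agent.Helper62.Mink

/-- the smooth step from `b` to `b + ε` -/
noncomputable def stp (b ε θ : ℝ) : ℝ := Real.smoothTransition ((θ - b) / ε)

theorem stp_contDiff (b ε : ℝ) : ContDiff ℝ 1 (stp b ε) := by
  unfold stp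
  exact (Real.smoothTransition.contDiff (n := 1)).comp ((contDiff_id.sub contDiff_const).div_const ε)

theorem stp_mono (b : ℝ) {ε : ℝ} (hε : 0 < ε) : Monotone (stp b ε) := by
  intro x y hxy
  unfold stp
  apply Real.smoothTransition.monotone
  gcongr

theorem stp_zero (b : ℝ) {ε : ℝ} (hε : 0 < ε) {θ : ℝ} (h : θ ≤ b) : stp b ε θ = 0 := by
  unfold stp
  exact Real.smoothTransition.zero_of_nonpos (div_nonpos_of_nonpos_of_nonneg (by linarith) hε.le)

theorem stp_one (b : ℝ) {ε : ℝ} (hε : 0 < ε) {θ : ℝ} (h : b + ε ≤ θ) : stp b ε θ = 1 := by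
  unfold stp
  exact Real.smoothTransition.one_of_one_le ((one_le_div hε).2 (by linarith))

theorem stp_deriv_nonneg (b : ℝ) {ε : ℝ} (hε : 0 < ε) (θ : ℝ) : 0 ≤ deriv (stp b ε) θ :=
  (stp_mono b hε).deriv_nonneg

theorem stp_deriv_cont (b ε : ℝ) : Continuous (deriv (stp b ε)) :=
  (stp_contDiff b ε).continuous_deriv le_rfl

theorem stp_hasDeriv (b ε θ : ℝ) : HasDerivAt (stp b ε) (deriv (stp b ε) θ) θ :=
  (((stp_contDiff b ε).differentiable one_ne_zero) θ).hasDerivAt

theorem stp_deriv_left (b : ℝ) {ε : ℝ} (hε : 0 < ε) {θ : ℝ} (h : θ < b) :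
    deriv (stp b ε) θ = 0 := by
  have : stp b ε =ᶠ[𝓝 θ] fun _ => 0 := by
    filter_upwards [Iio_mem_nhds h] with x hx
    exact stp_zero b hε (le_of_lt hx)
  rw [this.deriv_eq]; simp

theorem stp_deriv_right (b : ℝ) {ε : ℝ} (hε : 0 < ε) {θ : ℝ} (h : b + ε < θ) :
    deriv (stp b ε) θ = 0 := by
  have : stp b ε =ᶠ[𝓝 θ] fun _ => 1 := by
    filter_upwards [Ioi_mem_nhds h] with x hx
    exact stp_one b hε (le_of_lt hx)
  rw [this.deriv_eq]; simp

theorem stp_deriv_zero (b : ℝ) {ε : ℝ} (hε : 0 < ε) {θ : ℝ} (h : θ ∉ Icc b (b + ε)) :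
    deriv (stp b ε) θ = 0 := by
  rcases lt_or_ge θ b with h1 | h1
  · exact stp_deriv_left b hε h1
  · rcases lt_or_ge (b + ε) θ with h2 | h2
    · exact stp_deriv_right b hε h2
    · exact absurd ⟨h1, h2⟩ h

theorem stp_int (b : ℝ) {ε : ℝ} (hε : 0 < ε) {x y : ℝ} (hx : x ≤ b) (hy : b + ε ≤ y) :
    ∫ θ in x..y, deriv (stp b ε) θ = 1 := by
  rw [intervalIntegral.integral_eq_sub_of_hasDerivAt (fun θ _ => stp_hasDeriv b ε θ)
    ((stp_deriv_cont b ε).intervalIntegrable _ _), stp_zero b hε hx, stp_one b hε hy]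
  ring

/-- the radius function -/
noncomputable def rad (β α ε θ : ℝ) : ℝ := stp (β + ε) ε θ - stp (α - 2 * ε) ε θ

theorem rad_deriv (β α ε θ : ℝ) :
    deriv (rad β α ε) θ = deriv (stp (β + ε) ε) θ - deriv (stp (α - 2 * ε) ε) θ := by
  have := (stp_hasDeriv (β + ε) ε θ).sub (stp_hasDeriv (α - 2 * ε) ε θ)
  exact this.deriv

theorem rad_Rad {β α ε : ℝ} (hε : 0 < ε) (hβ0 : 0 ≤ β) (hα1 : α ≤ Real.pi)
    (h1 : 3 * ε ≤ Real.pi / 2 - β) (h2 : 3 * ε ≤ α - Real.pi / 2) :
    Rad (rad β α ε) ε where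
  pos := ⟨hε, by linarith [Real.pi_pos]⟩
  c1 := (stp_contDiff _ _).sub (stp_contDiff _ _)
  nn := by
    intro θ
    unfold rad
    have : stp (α - 2 * ε) ε θ ≤ stp (β + ε) ε θ := by
      unfold stp
      apply Real.smoothTransition.monotone
      have : θ - (α - 2 * ε) ≤ θ - (β + ε) := by linarith
      gcongr
    linarith
  z1 := by
    intro θ h
    unfold rad
    rw [stp_zero _ hε (by linarith), stp_zero _ hε (by linarith [Real.pi_pos])]
    ring
  z2 := by
    intro θ h
    unfold rad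
    rw [stp_one _ hε (by linarith [Real.pi_pos]), stp_one _ hε (by linarith)]
    ring
  one := by
    intro θ h
    have h' := abs_le.1 h
    unfold rad
    rw [stp_one _ hε (by linarith), stp_zero _ hε (by linarith)]
    ring
  up := by
    intro θ h
    rw [rad_deriv, stp_deriv_left (α - 2 * ε) hε (by linarith)]
    have := stp_deriv_nonneg (β + ε) hε θ
    linarith
  dn := by
    intro θ h
    rw [rad_deriv, stp_deriv_right (β + ε) hε (by linarith)]
    have := stp_deriv_nonneg (α - 2 * ε) hε θ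
    linarith

theorem hZG : StZG := by
  intro m f hm hf hR β α hβ0 hβ hα hα1
  have hF : Continuous (fun θ : ℝ => f (Real.cos θ)) :=
    hf.comp_continuous Real.continuous_cos
      (fun θ => ⟨Real.neg_one_le_cos θ, Real.cos_le_one θ⟩)
  set W : ℝ → ℝ := fun θ => (m : ℝ) * (f (Real.cos θ) * Real.sin θ ^ (m - 1)) with hW
  have hWc : Continuous W := continuous_const.mul (hF.mul (Real.continuous_sin.pow _))
  set P : ℝ → ℝ := fun θ => ∫ t in (0 : ℝ)..θ, W t with hP
  have hPd : ∀ θ, HasDerivAt P (W θ) θ := fun θ =>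
    intervalIntegral.integral_hasDerivAt_right (hWc.intervalIntegrable _ _)
      (hWc.stronglyMeasurableAtFilter _ _) hWc.continuousAt
  have hPc : Continuous P := continuous_iff_continuousAt.2 fun θ => (hPd θ).continuousAt
  set g : ℝ → ℝ := fun θ => f (Real.cos θ) * Real.sin θ ^ m / Real.cos θ with hg
  set Ψ : ℝ → ℝ := fun θ => g θ - P θ with hΨ
  have hgc : ∀ θ, Real.cos θ ≠ 0 → ContinuousAt g θ := fun θ h =>
    (hF.continuousAt.mul (Real.continuous_sin.continuousAt.pow m)).div
      Real.continuous_cos.continuousAt h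
  have hcβ : Real.cos β ≠ 0 := (Real.cos_pos_of_mem_Ioo ⟨by linarith [Real.pi_pos], hβ⟩).ne'
  have hcα : Real.cos α ≠ 0 :=
    (Real.cos_neg_of_pi_div_two_lt_of_lt hα (by linarith [Real.pi_pos])).ne
  have hD : DCe m f β α = Ψ β - Ψ α := by
    have e : P α - P β = ∫ t in β..α, W t :=
      intervalIntegral.integral_interval_sub_left (hWc.intervalIntegrable _ _)
        (hWc.intervalIntegrable _ _)
    have e2 : ∫ t in β..α, W t = (m : ℝ) * ∫ θ in β..α, f (Real.cos θ) * Real.sin θ ^ (m - 1) := by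
      rw [hW, intervalIntegral.integral_const_mul]
    simp only [DCe, hΨ]
    rw [← e2, ← e]
    simp only [hg]
    ring
  rw [hD]
  have key : ∀ η : ℝ, 0 < η → 0 ≤ (Ψ β + η) - (Ψ α - η) := by
    intro η hη
    have hcΨβ : ContinuousAt Ψ β := (hgc β hcβ).sub hPc.continuousAt
    have hcΨα : ContinuousAt Ψ α := (hgc α hcα).sub hPc.continuousAt
    obtain ⟨d1, hd1, hd1'⟩ := Metric.continuousAt_iff.1 hcΨβ η hη
    obtain ⟨d2, hd2, hd2'⟩ := Metric.continuousAt_iff.1 hcΨα η hη
    obtain ⟨ε, hε, hε1, hε2, hε3, hε4⟩ : ∃ ε : ℝ, 0 < ε ∧ 3 * ε ≤ Real.pi / 2 - β ∧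
        3 * ε ≤ α - Real.pi / 2 ∧ 2 * ε < d1 ∧ 2 * ε < d2 := by
      refine ⟨min (min ((Real.pi / 2 - β) / 3) ((α - Real.pi / 2) / 3)) (min (d1 / 3) (d2 / 3)),
        ?_, ?_, ?_, ?_, ?_⟩
      · exact lt_min (lt_min (by linarith) (by linarith)) (lt_min (by linarith) (by linarith))
      · have := (min_le_left (min ((Real.pi / 2 - β) / 3) ((α - Real.pi / 2) / 3))
          (min (d1 / 3) (d2 / 3))).trans (min_le_left _ _)
        linarith
      · have := (min_le_left (min ((Real.pi / 2 - β) / 3) ((α - Real.pi / 2) / 3))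
          (min (d1 / 3) (d2 / 3))).trans (min_le_right _ _)
        linarith
      · have := (min_le_right (min ((Real.pi / 2 - β) / 3) ((α - Real.pi / 2) / 3))
          (min (d1 / 3) (d2 / 3))).trans (min_le_left _ _)
        linarith
      · have := (min_le_right (min ((Real.pi / 2 - β) / 3) ((α - Real.pi / 2) / 3))
          (min (d1 / 3) (d2 / 3))).trans (min_le_right _ _)
        linarith
    set R : ℝ → ℝ := rad β α ε with hRdef
    have hRad : Rad R ε := rad_Rad hε hβ0 hα1 hε1 hε2
    have h0 := hR R ε hRad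
    have hRd : ∀ θ, HasDerivAt R (deriv R θ) θ := fun θ =>
      ((hRad.c1.differentiable one_ne_zero) θ).hasDerivAt
    have hRdc : Continuous (deriv R) := hRad.c1.continuous_deriv le_rfl
    have hR0 : R 0 = 0 := hRad.z1 0 hε.le
    have hRpi : R Real.pi = 0 := hRad.z2 Real.pi (by linarith)
    -- the derivative of R vanishes off A
    have hoff : ∀ θ, θ ∉ Icc (β + ε) (β + ε + ε) ∪ Icc (α - 2 * ε) (α - 2 * ε + ε) →
        deriv R θ = 0 := by
      intro θ h
      rw [mem_union, not_or] at h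
      rw [hRdef, rad_deriv, stp_deriv_zero _ hε h.1, stp_deriv_zero _ hε h.2]
      ring
    have hon : ∀ θ, θ ∈ Icc (β + ε) (β + ε + ε) ∪ Icc (α - 2 * ε) (α - 2 * ε + ε) →
        Real.cos θ ≠ 0 := by
      intro θ h
      rcases h with h | h
      · exact (Real.cos_pos_of_mem_Ioo ⟨by linarith [h.1, Real.pi_pos], by linarith [h.2]⟩).ne'
      · exact (Real.cos_neg_of_pi_div_two_lt_of_lt (by linarith [h.1])
          (by linarith [h.2, Real.pi_pos])).ne
    have hRg : Continuous (fun θ => deriv R θ * g θ) := by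
      refine continuous_iff_continuousAt.2 fun θ => ?_
      by_cases h : θ ∈ Icc (β + ε) (β + ε + ε) ∪ Icc (α - 2 * ε) (α - 2 * ε + ε)
      · exact hRdc.continuousAt.mul (hgc θ (hon θ h))
      · have hcl : IsClosed (Icc (β + ε) (β + ε + ε) ∪ Icc (α - 2 * ε) (α - 2 * ε + ε)) :=
          isClosed_Icc.union isClosed_Icc
        have hev : (fun θ => deriv R θ * g θ) =ᶠ[𝓝 θ] fun _ => 0 := by
          filter_upwards [hcl.isOpen_compl.mem_nhds h] with x hx
          rw [hoff x hx, zero_mul]
        exact continuousAt_const.congr hev.symm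
    have hRΨ : Continuous (fun θ => deriv R θ * Ψ θ) := by
      have : (fun θ => deriv R θ * Ψ θ) = fun θ => deriv R θ * g θ - deriv R θ * P θ := by
        funext θ; simp only [hΨ]; ring
      rw [this]
      exact hRg.sub (hRdc.mul hPc)
    have hparts : ∫ θ in (0 : ℝ)..Real.pi, R θ * W θ =
        - ∫ θ in (0 : ℝ)..Real.pi, deriv R θ * P θ := by
      rw [intervalIntegral.integral_mul_deriv_eq_deriv_mul (fun θ _ => hRd θ) (fun θ _ => hPd θ)
        (hRdc.intervalIntegrable _ _) (hWc.intervalIntegrable _ _), hR0, hRpi]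
      ring
    have hI : (∫ θ in (0 : ℝ)..Real.pi, f (Real.cos θ) *
        (m * R θ * Real.sin θ ^ (m - 1) + deriv R θ * Real.sin θ ^ m / Real.cos θ)) =
        ∫ θ in (0 : ℝ)..Real.pi, deriv R θ * Ψ θ := by
      have e1 : (fun θ => f (Real.cos θ) *
          (m * R θ * Real.sin θ ^ (m - 1) + deriv R θ * Real.sin θ ^ m / Real.cos θ)) =
          fun θ => R θ * W θ + deriv R θ * g θ := by
        funext θ; simp only [hW, hg]; ring
      have e2 : (fun θ => deriv R θ * Ψ θ) = fun θ => deriv R θ * g θ - deriv R θ * P θ := by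
        funext θ; simp only [hΨ]; ring
      have c1 : Continuous (fun θ => R θ * W θ) := hRad.c1.continuous.mul hWc
      have c2 : Continuous (fun θ => deriv R θ * P θ) := hRdc.mul hPc
      rw [e1, e2, intervalIntegral.integral_add
        (c1.intervalIntegrable _ _) (hRg.intervalIntegrable _ _),
        intervalIntegral.integral_sub (hRg.intervalIntegrable _ _)
        (c2.intervalIntegrable _ _), hparts]
      ring
    unfold Rin at h0
    rw [hI] at h0
    refine h0.trans ?_
    have hk1 := stp_int (β + ε) hε (x := 0) (y := Real.pi) (by linarith) (by linarith [Real.pi_pos])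
    have hk2 := stp_int (α - 2 * ε) hε (x := 0) (y := Real.pi) (by linarith [Real.pi_pos])
      (by linarith)
    have c1 : Continuous (fun θ => deriv (stp (β + ε) ε) θ * (Ψ β + η)) :=
      (stp_deriv_cont _ _).mul continuous_const
    have c2 : Continuous (fun θ => deriv (stp (α - 2 * ε) ε) θ * (Ψ α - η)) :=
      (stp_deriv_cont _ _).mul continuous_const
    have hval : ∫ θ in (0 : ℝ)..Real.pi, (deriv (stp (β + ε) ε) θ * (Ψ β + η) -
        deriv (stp (α - 2 * ε) ε) θ * (Ψ α - η)) = (Ψ β + η) - (Ψ α - η) := by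
      rw [intervalIntegral.integral_sub (c1.intervalIntegrable _ _) (c2.intervalIntegrable _ _),
        intervalIntegral.integral_mul_const, intervalIntegral.integral_mul_const, hk1, hk2]
      ring
    rw [← hval]
    refine intervalIntegral.integral_mono_on Real.pi_pos.le (hRΨ.intervalIntegrable _ _)
      ((c1.sub c2).intervalIntegrable _ _) ?_
    intro θ _
    rw [hRdef, rad_deriv, sub_mul]
    have a1 : deriv (stp (β + ε) ε) θ * Ψ θ ≤ deriv (stp (β + ε) ε) θ * (Ψ β + η) := by
      by_cases h : θ ∈ Icc (β + ε) (β + ε + ε)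
      · refine mul_le_mul_of_nonneg_left ?_ (stp_deriv_nonneg _ hε θ)
        have hd : dist θ β < d1 := by
          rw [Real.dist_eq, abs_of_nonneg (by linarith [h.1])]
          linarith [h.2]
        have := hd1' hd
        rw [Real.dist_eq] at this
        linarith [(abs_lt.1 this).2]
      · rw [stp_deriv_zero _ hε h]; simp
    have a2 : deriv (stp (α - 2 * ε) ε) θ * (Ψ α - η) ≤ deriv (stp (α - 2 * ε) ε) θ * Ψ θ := by
      by_cases h : θ ∈ Icc (α - 2 * ε) (α - 2 * ε + ε)
      · refine mul_le_mul_of_nonneg_left ?_ (stp_deriv_nonneg _ hε θ)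
        have hd : dist θ α < d2 := by
          rw [Real.dist_eq, abs_sub_comm, abs_of_nonneg (by linarith [h.2])]
          linarith [h.1]
        have := hd2' hd
        rw [Real.dist_eq] at this
        linarith [(abs_lt.1 this).1]
      · rw [stp_deriv_zero _ hε h]; simp
    linarith
  by_contra hneg
  push Not at hneg
  have := key (-(Ψ β - Ψ α) / 4) (by linarith)
  linarith

end Pool.Agent.Helper82.MU
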